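import Mathlib
import Pool.Agent.HuaOne84.Basic

/-!
# A Hua system is torsion-free or of prime exponent
-/

set_option autoImplicit false

namespace Pool.Agent.HuaFin91

open Pool.Agent.HuaTop84 Pool.Agent.HuaOne84

variable {A : Type} [AddCommGroup A] (H : HS A)

/-- Scalars below the smallest order (and the smallest order itself) are inverted by the
inversion. -/
theorem smul_inv_smul' (p : ℕ) (hA : ∀ (n : ℕ) (a : A), n ≠ 0 → n < p → n • a = 0 → a = 0) :
    ∀ (n : ℕ) (u : A), n ≤ p → n ≠ 0 → n • u ≠ 0 → n • H.inv (n • u) = H.inv u := by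
  intro n
  induction n with
  | zero => intro u _ h; exact absurd rfl h
  | succ n ih =>
    intro u hnp _ hsu0
    have hu : u ≠ 0 := by
      intro hu
      apply hsu0
      rw [hu, smul_zero]
    by_cases hn : n = 0
    · subst hn
      rw [zero_add, one_smul, one_smul]
    have hlt : n < p := by omega
    have ih' : ∀ v : A, v ≠ 0 → n • H.inv (n • v) = H.inv v := fun v hv =>
      ih v hlt.le hn (fun h => hv (hA n v hn hlt h))
    have hnu : n • u ≠ 0 := fun h => hu (hA n u hn hlt h)
    have hsu : n • u + u ≠ 0 := by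
      rw [← succ_nsmul]
      exact hsu0
    have h1 : H.U (n • u) (H.inv u) = n • n • u := by
      rw [← ih' u hu, map_nsmul, H.U_self]
    have h2 := H.inv_add (n • u) u hnu hu hsu
    have h3 : H.U (H.inv (n • u)) (H.inv (H.inv (n • u) + H.inv u)) =
        H.inv ((n * (n + 1)) • u) := by
      rw [← H.inv_inv (H.U (H.inv (n • u)) (H.inv (H.inv (n • u) + H.inv u))),
        H.inv_U _ _ (H.inv_ne _ hnu), H.inv_inv, H.inv_inv, map_add, H.U_self, h1]
      congr 1
      rw [← mul_smul, ← add_nsmul]
      congr 1
      ring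
    rw [h3] at h2
    have h4 := ih' (n • u + u) hsu
    have e1 : n • (n • u + u) = (n * (n + 1)) • u := by
      rw [← succ_nsmul, ← mul_smul]
    rw [e1] at h4
    have h5 : n • H.inv (n • u + u) = H.inv u - H.inv (n • u + u) := by
      have h6 := congrArg (fun z => n • z) h2
      simp only [nsmul_sub] at h6
      rw [ih' u hu, h4] at h6
      exact h6
    rw [succ_nsmul u n, succ_nsmul, h5]
    abel

include H in
/-- A Hua system is torsion-free or of prime exponent. -/
theorem tf_or_exponent : (∀ (n : ℕ) (a : A), n ≠ 0 → n • a = 0 → a = 0) ∨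
    ∃ p : ℕ, p.Prime ∧ ∀ a : A, p • a = 0 := by
  classical
  by_cases h : ∃ n : ℕ, n ≠ 0 ∧ ∃ a : A, a ≠ 0 ∧ n • a = 0
  · right
    obtain ⟨hp0, c, hc, hpc⟩ := Nat.find_spec h
    set p := Nat.find h with hp
    have hA : ∀ (n : ℕ) (a : A), n ≠ 0 → n < p → n • a = 0 → a = 0 := by
      intro n a hn hnp ha
      by_contra ha0
      exact Nat.find_min h hnp ⟨hn, a, ha0, ha⟩
    refine ⟨p, ?_, ?_⟩
    · rw [Nat.prime_def_lt]
      refine ⟨?_, ?_⟩
      · by_contra hlt
        have h1 : p = 1 := by omega
        rw [h1, one_smul] at hpc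
        exact hc hpc
      · intro m hm hdvd
        by_contra hm1
        obtain ⟨k, hk⟩ := hdvd
        have hm0 : m ≠ 0 := by
          intro hm0
          apply hp0
          rw [hk, hm0, zero_mul]
        have hk0 : k ≠ 0 := by
          intro hk0
          apply hp0
          rw [hk, hk0, mul_zero]
        have hkp : k < p := by
          rw [hk]
          have : 2 ≤ m := by omega
          nlinarith [Nat.pos_of_ne_zero hk0]
        rw [hk, mul_smul] at hpc
        exact hc (hA k c hk0 hkp (hA m (k • c) hm0 hm hpc))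
    · intro b
      by_contra hb
      have h1 : p • (b + c) = p • b := by rw [smul_add, hpc, add_zero]
      have h2 := smul_inv_smul' H p hA p b le_rfl hp0 hb
      have h3 := smul_inv_smul' H p hA p (b + c) le_rfl hp0 (by rw [h1]; exact hb)
      rw [h1, h2] at h3
      have h4 := congrArg H.inv h3
      rw [H.inv_inv, H.inv_inv] at h4
      exact hc (left_eq_add.mp h4)
  · left
    intro n a hn ha
    by_contra ha0
    exact h ⟨n, hn, a, ha0, ha⟩

end Pool.Agent.HuaFin91
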