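import Mathlib
import Pool.Agent.HuaT31.Main

/-!
# The last step of the frozen statement

If all third differences of Hua systems vanish then every Hua system on a nonzero abelian group
comes from a quadratic Jordan division ring, in the exact form of the frozen statement.
-/

set_option autoImplicit false

open scoped TensorProduct

namespace Pool.Agent.HuaFin91

open Pool.Agent.HuaVal Pool.Agent.HuaOne84 Pool.Agent.HuaT31

/-- The frozen statement, from the vanishing of the third differences. -/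
theorem of_T3
    (h0 : ∀ (A : Type) [AddCommGroup A], ∀ J : A → A → A, JSys J →
      ∀ e, e ≠ 0 → ∀ x y z c, T3 J e x y z c = 0) :
  ∀ (A : Type) [AddCommGroup A], Nontrivial A →
  ∀ j : A → Option A → Option A,
   (∀ a : A, a ≠ 0 → (∀ x : Option A, j a (j a x) = x) ∧ j a (some a) = some a ∧
      j a (some (-a)) = some (-a) ∧ j a (some 0) = none) →
   (∀ a : A, a ≠ 0 → ∀ x : Option A,
      Option.map (fun b => a - b) (j a (Option.map (fun b => a - b)
        (j a (Option.map (fun b => a - b) (j a x))))) = x) →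
   (∀ a b : A, a ≠ 0 → b ≠ 0 → ∃ f : A →+ A, ∀ x : A, j a (j b (some x)) = some (f x)) →
   ∃ (one : A) (U : QuadraticMap ℤ A (Module.End ℤ A)),
     U one = 1 ∧
     (∀ a b c : A, U a ((QuadraticMap.polar (⇑U) b c) a) = (QuadraticMap.polar (⇑U) a (U a c)) b) ∧
     (∀ a b : A, U (U a b) = U a * U b * U a) ∧
     (∀ (Ω : Type) [CommRing Ω] (U' : QuadraticMap Ω (Ω ⊗[ℤ] A) (Module.End Ω (Ω ⊗[ℤ] A))),
        (∀ (a c : A) (ω : Ω), U' ((1 : Ω) ⊗ₜ[ℤ] a) (ω ⊗ₜ[ℤ] c) = ω ⊗ₜ[ℤ] (U a c)) →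
        (U' ((1 : Ω) ⊗ₜ[ℤ] one) = 1 ∧
         (∀ x y z : Ω ⊗[ℤ] A,
            U' x ((QuadraticMap.polar (⇑U') y z) x) = (QuadraticMap.polar (⇑U') x (U' x z)) y) ∧
         (∀ x y : Ω ⊗[ℤ] A, U' (U' x y) = U' x * U' y * U' x))) ∧
     (∀ a : A, a ≠ 0 → Function.Bijective (U a)) ∧
     (∀ a b c : A, a ≠ 0 → b ≠ 0 → U b c = b → j a (some b) = some (U a c)) := by
  intro A _ hnt j h1 h2 h3
  obtain ⟨J, hJ, hjJ⟩ := exists_J (j := j) ⟨h1, h2, h3⟩
  obtain ⟨e, he⟩ := exists_ne (0 : A)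
  obtain ⟨one, U, ⟨u1, u2, u3⟩, hs, hb, hc⟩ := jordan_of_T3_all j hJ hjJ (h0 A J hJ) he
  exact ⟨one, U, u1, u2, u3, fun Ω _ U' hU' => hs Ω U' hU', hb, hc⟩

end Pool.Agent.HuaFin91
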